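import Pool.Agent.X214.NU.FamC

/-! The critical degrees. -/

set_option autoImplicit false

namespace Pool.Agent.X214.NU

open Finset Pool.Agent.TH176.Nag Pool.Agent.TH603.Sur Pool.Agent.TH641.UM Pool.Agent.TH2.NU

theorem ex_B {N X e : ℕ} (h1 : N + X ≤ e) (h2 : e + X ≤ 3 * N) : ∃ x y1 y2 : ℕ, X ≤ x ∧
    x + (y1 + y2) = N ∧ e = 2 * x + y1 + 3 * y2 := by
  rcases Nat.even_or_odd' (e - N - X) with ⟨k, hk | hk⟩
  · exact ⟨X, N - X - k, k, le_rfl, by omega, by omega⟩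
  · exact ⟨X + 1, N - (X + 1) - k, k, by omega, by omega, by omega⟩

theorem ex_G {N X e : ℕ} (h1 : N + 3 * X + 2 ≤ e) (h2 : e ≤ 4 * N) : ∃ x y1 y2 : ℕ,
    X ≤ x ∧ x + (y1 + y2) = N ∧ e = 4 * x + y1 + 3 * y2 := by
  rcases le_or_gt (3 * N + X) e with h | h
  · exact ⟨e - 3 * N, 0, 4 * N - e, by omega, by omega, by omega⟩
  · rcases Nat.even_or_odd' (3 * N + X - e) with ⟨k, hk | hk⟩
    · exact ⟨X, k, N - X - k, le_rfl, by omega, by omega⟩
    · exact ⟨X + 1, k + 1, N - (X + 1) - (k + 1), by omega, by omega, by omega⟩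

theorem ex_C {N X X2 q : ℕ} (h1 : q < N + X) (h2 : N < q + X) (h3 : 2 * X2 + X ≤ N)
    (h4 : X + 3 ≤ N) : ∃ x0 x1 x2 : ℕ, x0 + x1 + x2 = N ∧ 2 ≤ x0 ∧ X2 ≤ x2 ∧ q + x0 = N + x2 := by
  rcases le_or_gt (q + 2) (X2 + N) with h | h
  · exact ⟨X2 + N - q, N - (X2 + N - q) - X2, X2, by omega, by omega, le_rfl, by omega⟩
  · exact ⟨2, N - 2 - (q + 2 - N), q + 2 - N, by omega, le_rfl, by omega, by omega⟩

/-- the region of the numbers `q` -/
def Reg3 (n q : ℕ) : Prop := 3 * n ≤ 8 * q ∨ 8 * q + 16 ≤ n ∨ 138 ≤ n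

/-- **the critical degrees** -/
theorem crit {n m q d : ℕ} (hn : 37 ≤ n) {w : Fin n → ℕ} (hw : ∀ i, w i = m ∨ w i = m + 1)
    (hq : ∑ i, w i = n * m + q) (hm : (n : ℝ) - 6 * √(n : ℝ) + 9 ≤ m) (hreg : Reg3 n q)
    (hu : |√(n : ℝ) * (2 * d + 3) - (n + 2 * (n * m + q))| ≤ 2.95) : Good w d := by
  obtain ⟨hqn, -⟩ := ms_near hw hq
  have hnR : (37 : ℝ) ≤ n := by exact_mod_cast hn
  obtain ⟨s, hs⟩ : ∃ s : ℝ, s = √(n : ℝ) := ⟨_, rfl⟩
  have hss : s * s = n := by rw [hs]; exact Real.mul_self_sqrt (by linarith)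
  have hs6 : 6.05 ≤ s := by rw [hs]; exact Real.le_sqrt_of_sq_le (by norm_num; linarith)
  have hs0 : 0 < s := by linarith
  have hq0 : (0 : ℝ) ≤ q := Nat.cast_nonneg q
  have hm0 : (0 : ℝ) ≤ m := Nat.cast_nonneg m
  obtain ⟨N, c, H, hnc, hN, hc5, hc1, hc4, hH0, hH, hH138, hwin⟩ := windows hn
  have hk : (n : ℝ) / 8 - 11 / 12 * √(n : ℝ) ≤ m := by
    rw [← hs] at hm ⊢
    rw [← hss] at hm ⊢
    nlinarith [sq_nonneg (s - 3)]
  have hkd : √(n : ℝ) * m ≤ 2 * d := by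
    have h1 := (abs_le.1 hu).1
    rw [← hs] at h1 ⊢
    have h2 : s * (s * m) ≤ s * (2 * d) := by
      rw [← hss] at h1
      nlinarith
    exact le_of_mul_le_mul_left h2 hs0
  obtain ⟨hE, hS⟩ := hwin d m hk hkd
  -- the number `X`
  obtain ⟨X, hX1, hX2⟩ : ∃ X : ℕ, H + 2.95 < 2 * X ∧ 2 * (X : ℝ) ≤ H + 4.95 := by
    refine ⟨⌊(H + 2.95) / 2⌋₊ + 1, ?_, ?_⟩
    · have := Nat.lt_floor_add_one ((H + 2.95) / 2)
      push_cast
      linarith
    · have := Nat.floor_le (show 0 ≤ (H + 2.95) / 2 by linarith)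
      push_cast
      linarith
  have hX4 : 4 * X + 1 ≤ 2 * N + c := by
    have : ((4 * X + 1 : ℕ) : ℝ) ≤ ((2 * N + c : ℕ) : ℝ) := by
      push_cast
      linarith
    exact_mod_cast this
  have hX0 : 0 < X := by
    have : (0 : ℝ) < X := by linarith
    exact_mod_cast this
  have hbig : ∀ x : ℕ, X ≤ x → H + 2.95 < 2 * (x : ℝ) := by
    intro x hx
    have : (X : ℝ) ≤ x := by exact_mod_cast hx
    linarith
  obtain ⟨hu1, hu2⟩ := abs_le.1 hu
  rcases le_or_gt (N + X) q with hq1 | hq1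
  · rcases le_or_gt (q + X) (3 * N) with hq2 | hq2
    · obtain ⟨x, y1, y2, h1, h2, h3⟩ := ex_B hq1 hq2
      exact fam_B (j := 0) hE hS hnc (by omega) h2 (by omega) (by omega) hw hq (hbig x h1) (hbig x h1) hu1 hu2
    · by_cases hc0 : 0 < c ∧ q + X ≤ 3 * N + c
      · obtain ⟨x, y1, y2, h1, h2, h3⟩ := ex_B (N := N) (X := X) (e := q - c) (by omega) (by omega)
        exact fam_B (j := 1) hE hS hnc (by omega) h2 (by omega) (by omega) hw hq (hbig x h1) (hbig x h1) hu1 hu2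
      · rcases le_or_gt q (4 * N) with hq3 | hq3
        · obtain ⟨x, y1, y2, h1, h2, h3⟩ := ex_G (N := N) (X := X) (e := q) (by omega) (by omega)
          exact fam_G (j := 0) hE hS hnc (by omega) h2 (by omega) (by omega) hw hq (hbig x h1) (hbig x h1) hu1 hu2
        · obtain ⟨x, y1, y2, h1, h2, h3⟩ := ex_G (N := N) (X := X) (e := q - c) (by omega) (by omega)
          exact fam_G (j := 1) hE hS hnc (by omega) h2 (by omega) (by omega) hw hq (hbig x h1) (hbig x h1) hu1 hu2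
  · rcases le_or_gt (q + X) N with hq2 | hq2
    · exact fam_A (x := N - q) hE hS hnc (by omega) (by omega) hw hq (hbig _ (by omega))
        (hbig _ (by omega)) hu1 hu2
    · have h138 : 138 ≤ n := by
        unfold Reg3 at hreg
        omega
      have hH' := hH138 h138
      obtain ⟨X2, hX21, hX22⟩ : ∃ X2 : ℕ, 5 + H ≤ 2 * (X2 : ℝ) ∧ 2 * (X2 : ℝ) < 7 + H := by
        refine ⟨⌈(5 + H) / 2⌉₊, ?_, ?_⟩
        · have := Nat.le_ceil ((5 + H) / 2)
          linarith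
        · have := Nat.ceil_lt_add_one (show 0 ≤ (5 + H) / 2 by linarith)
          linarith
      have h3 : 2 * X2 + X ≤ N := by
        have : ((2 * X2 + X : ℕ) : ℝ) < ((N + 1 : ℕ) : ℝ) := by
          push_cast
          linarith
        have : 2 * X2 + X < N + 1 := by exact_mod_cast this
        omega
      obtain ⟨x0, x1, x2, h4, h5, h6, h7⟩ := ex_C (N := N) (X := X) (X2 := X2) (q := q) (by omega)
        (by omega) h3 (by omega)
      have h6R : (X2 : ℝ) ≤ x2 := by exact_mod_cast h6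
      have h2m : 2 * N ≤ m := by
        have h138R : (138 : ℝ) ≤ n := by exact_mod_cast h138
        have hs' : 11.7 ≤ s := by
          rw [hs]; exact Real.le_sqrt_of_sq_le (by norm_num; linarith)
        have h8 : (n : ℝ) ≤ 2 * m := by
          rw [← hs, ← hss] at hm
          rw [← hss]
          nlinarith
        have h9 : n ≤ 2 * m := by exact_mod_cast h8
        omega
      exact fam_C hE hS hnc hN hc5 h4 h2m hH0 h5 (by linarith) h7 hw hq hu

end Pool.Agent.X214.NU
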