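import Pool.Agent.X214.NU.Tab

/-! The critical degrees for `36 ≤ n ≤ 137`. -/

set_option autoImplicit false

namespace Pool.Agent.X214.NU

open Finset Pool.Agent.TH176.Nag Pool.Agent.TH603.Sur Pool.Agent.TH641.UM Pool.Agent.TH2.NU
open Pool.Agent.TH760.EN

theorem chk_n {n : ℕ} (h1 : 36 ≤ n) (h2 : n ≤ 137) : chk n = true := by
  have h := List.all_eq_true.1 chk_all (n - 36) (List.mem_range.2 (by omega))
  rwa [Nat.sub_add_cancel h1] at h

theorem cast_sub_ge (a b : ℕ) : (a : ℝ) - b ≤ ((a - b : ℕ) : ℝ) := by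
  have h : a ≤ (a - b) + b := by omega
  have h2 : (a : ℝ) ≤ ((a - b : ℕ) : ℝ) + b := by exact_mod_cast h
  linarith

theorem cc_cases (n : ℕ) : (n % 4 = 0 ∧ cc n = 0 ∧ kE n = 1350) ∨ (n % 4 = 1 ∧ cc n = 5 ∧ kE n = 2400) ∨
    (n % 4 = 2 ∧ cc n = 2 ∧ kE n = 2250) ∨ (n % 4 = 3 ∧ cc n = 3 ∧ kE n = 2700) := by
  rcases (by omega : n % 4 = 0 ∨ n % 4 = 1 ∨ n % 4 = 2 ∨ n % 4 = 3) with h | h | h | h
  · left; exact ⟨h, by simp [cc, h], by simp [kE, h]⟩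
  · right; left; exact ⟨h, by simp [cc, h], by simp [kE, h]⟩
  · right; right; left; exact ⟨h, by simp [cc, h], by simp [kE, h]⟩
  · right; right; right; exact ⟨h, by simp [cc, h], by simp [kE, h]⟩

theorem n_eq {n : ℕ} (h1 : 36 ≤ n) : n = 4 * NN n + cc n ∧ 8 ≤ NN n := by
  unfold NN
  rcases cc_cases n with ⟨h, h', -⟩ | ⟨h, h', -⟩ | ⟨h, h', -⟩ | ⟨h, h', -⟩ <;> rw [h'] <;> omega

theorem HEc (n : ℕ) : HE (cc n) ∧ HS (cc n) := by
  have h3 : HE 3 := Pool.Agent.TH641.EN.HE_three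
  rcases cc_cases n with ⟨h, h', -⟩ | ⟨h, h', -⟩ | ⟨h, h', -⟩ | ⟨h, h', -⟩ <;> rw [h']
  · exact ⟨he0, hs0⟩
  · exact ⟨Pool.Agent.TH938.Q5.he5 he2 h3, Pool.Agent.TH938.Q5.hs5 he2 h3⟩
  · exact ⟨he2, hs2⟩
  · exact ⟨h3, hs3_of h3⟩

theorem rt_bd {n : ℕ} (h1 : rt n * rt n ≤ 10000 * n) (h2 : 10000 * n < (rt n + 1) * (rt n + 1)) :
    (rt n : ℝ) ≤ 100 * √(n : ℝ) ∧ 100 * √(n : ℝ) < rt n + 1 := by
  have h1R : (rt n : ℝ) * rt n ≤ 10000 * n := by exact_mod_cast h1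
  have h2R : 10000 * (n : ℝ) < (rt n + 1) * (rt n + 1) := by exact_mod_cast h2
  have hs : √(n : ℝ) * √(n : ℝ) = n := Real.mul_self_sqrt (Nat.cast_nonneg n)
  have hs0 := Real.sqrt_nonneg (n : ℝ)
  have hr0 : (0 : ℝ) ≤ rt n := Nat.cast_nonneg _
  constructor
  · by_contra hcon
    push Not at hcon
    nlinarith
  · by_contra hcon
    push Not at hcon
    nlinarith

theorem windows2 {n : ℕ} (h1 : 36 ≤ n) (h2 : n ≤ 137) {d k : ℕ}
    (hk : (n : ℝ) / 8 - 11 / 12 * √(n : ℝ) ≤ k) (hkd : √(n : ℝ) * k ≤ 2 * d) :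
    WE n (NN n) (cc n) d ((hEn n : ℝ) / 300) ∧ WS n (NN n) (cc n) d ((hSn n : ℝ) / 300) := by
  have hc := chk_n h1 h2
  unfold chk at hc
  simp only [Bool.and_eq_true, decide_eq_true_eq] at hc
  obtain ⟨⟨⟨r1, r2⟩, -⟩, -⟩ := hc
  obtain ⟨s1, s2⟩ := rt_bd r1 r2
  obtain ⟨hn, hN⟩ := n_eq h1
  obtain ⟨hE, hS⟩ := HEc n
  obtain ⟨s, hs⟩ : ∃ s : ℝ, s = √(n : ℝ) := ⟨_, rfl⟩
  rw [← hs] at s1 s2
  have hend : ((n : ℝ) + cc n) / 2 - 3 * √(n : ℝ) ≤ ((150 * (n + cc n) - 9 * rt n : ℕ) : ℝ) / 300 := by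
    have h := cast_sub_ge (150 * (n + cc n)) (9 * rt n)
    push_cast at h ⊢
    rw [← hs]
    linarith
  constructor
  · unfold hEn
    rcases le_total (150 * (n + cc n) - 9 * rt n) (2 * (rt n + 1) + kE n) with h | h
    · rw [min_eq_left h]
      exact (WE_end hE hn h1).mono hend
    · rw [min_eq_right h]
      obtain ⟨σ, f, hf0, hf, hκ⟩ : ∃ (σ : ℕ) (f : ℝ), 0 ≤ f ∧
          (σ : ℝ) + 1 + f = NN n + (cc n : ℝ) / 4 ∧
          9 / 2 + 4 * f + (cc n : ℝ) / 2 = (kE n : ℝ) / 300 := by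
        rcases cc_cases n with ⟨-, h', h''⟩ | ⟨-, h', h''⟩ | ⟨-, h', h''⟩ | ⟨-, h', h''⟩ <;>
          rw [h', h'']
        · refine ⟨NN n - 1, 0, le_rfl, ?_, by norm_num⟩
          rw [Nat.cast_sub (by omega)]; push_cast; ring
        · exact ⟨NN n, 1 / 4, by norm_num, by push_cast; ring, by norm_num⟩
        · refine ⟨NN n - 1, 1 / 2, by norm_num, ?_, by norm_num⟩
          rw [Nat.cast_sub (by omega)]; push_cast; ring
        · refine ⟨NN n - 1, 3 / 4, by norm_num, ?_, by norm_num⟩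
          rw [Nat.cast_sub (by omega)]; push_cast; ring
      refine (WE_win hE hn h1 (by omega) hf0 hf hk hkd).mono ?_
      rw [← hs]
      push_cast
      linarith
  · unfold hSn
    rcases le_or_gt (150 * (n + cc n) - 9 * rt n) (2 * (rt n + 1) + 150 + 150 * cc n) with h | h
    · rw [min_eq_left h]
      exact (WS_end hS hn h1).mono hend
    · rw [min_eq_right h.le]
      have h37 : 37 ≤ n := by
        rcases Nat.eq_or_lt_of_le h1 with h36 | h36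
        · exfalso
          rw [← h36] at h
          exact absurd h (by decide)
        · omega
      refine (WS_win hS hn h37).mono ?_
      rw [← hs]
      push_cast
      linarith

/-- **the critical degrees**, `36 ≤ n ≤ 137` -/
theorem crit2 {n m q d : ℕ} (h1 : 36 ≤ n) (h2 : n ≤ 137) {w : Fin n → ℕ}
    (hw : ∀ i, w i = m ∨ w i = m + 1)
    (hq : ∑ i, w i = n * m + q) (hm : (n : ℝ) - 6 * √(n : ℝ) + 9 ≤ m)
    (hreg : q < (ab n).1 ∨ (ab n).2 < q)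
    (hu1 : -2.95 ≤ √(n : ℝ) * (2 * d + 3) - (n + 2 * (n * m + q)))
    (hu2 : √(n : ℝ) * (2 * d + 3) - (n + 2 * (n * m + q)) ≤ 2.1) : Good w d := by
  obtain ⟨hqn, -⟩ := ms_near hw hq
  have hnR : (36 : ℝ) ≤ n := by exact_mod_cast h1
  obtain ⟨s, hs⟩ : ∃ s : ℝ, s = √(n : ℝ) := ⟨_, rfl⟩
  have hss : s * s = n := by rw [hs]; exact Real.mul_self_sqrt (by linarith)
  have hs6 : 6 ≤ s := by rw [hs]; exact Real.le_sqrt_of_sq_le (by norm_num; linarith)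
  have hs0 : 0 < s := by linarith
  have hq0 : (0 : ℝ) ≤ q := Nat.cast_nonneg q
  have hm0 : (0 : ℝ) ≤ m := Nat.cast_nonneg m
  have hm18 : n ≤ 2 * m + 18 := by
    have : ((n : ℕ) : ℝ) ≤ ((2 * m + 18 : ℕ) : ℝ) := by
      push_cast
      rw [← hs, ← hss] at hm
      rw [← hss]
      nlinarith
    exact_mod_cast this
  have hk : (n : ℝ) / 8 - 11 / 12 * √(n : ℝ) ≤ m := by
    rw [← hs] at hm ⊢
    rw [← hss] at hm ⊢
    nlinarith [sq_nonneg (s - 3)]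
  have hkd : √(n : ℝ) * m ≤ 2 * d := by
    rw [← hs] at hu1 ⊢
    have h2 : s * (s * m) ≤ s * (2 * d) := by
      rw [← hss] at hu1
      nlinarith
    exact le_of_mul_le_mul_left h2 hs0
  obtain ⟨hE, hS⟩ := windows2 h1 h2 hk hkd
  obtain ⟨hnc, hN⟩ := n_eq h1
  have hc := chk_n h1 h2
  unfold chk at hc
  simp only [Bool.and_eq_true, decide_eq_true_eq] at hc
  obtain ⟨⟨-, hX4⟩, hall⟩ := hc
  have hq1 := List.all_eq_true.1 hall q (List.mem_range.2 (by omega))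
  unfold chk1 at hq1
  simp only [Bool.or_eq_true, Bool.and_eq_true, decide_eq_true_eq] at hq1
  -- the number `X`
  obtain ⟨X, hX⟩ : ∃ X : ℕ, X = XA n := ⟨_, rfl⟩
  have hXE : hEn n + 630 < 600 * X := by
    rw [hX]; unfold XA
    have := le_max_right (hSn n + 885) (hEn n + 630)
    omega
  have hXS : hSn n + 885 < 600 * X := by
    rw [hX]; unfold XA
    have := le_max_left (hSn n + 885) (hEn n + 630)
    omega
  rw [← hX] at hX4 hq1
  have hX0 : 0 < X := by omega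
  have hbE : ∀ x : ℕ, X ≤ x → (hEn n : ℝ) / 300 + 2.1 < 2 * (x : ℝ) := by
    intro x hx
    have : hEn n + 630 < 600 * x := by omega
    have : (hEn n : ℝ) + 630 < 600 * x := by exact_mod_cast this
    linarith
  have hbS : ∀ x : ℕ, X ≤ x → (hSn n : ℝ) / 300 + 2.95 < 2 * (x : ℝ) := by
    intro x hx
    have : hSn n + 885 < 600 * x := by omega
    have : (hSn n : ℝ) + 885 < 600 * x := by exact_mod_cast this
    linarith
  have hc5 : cc n ≤ 5 ∧ cc n ≠ 1 ∧ cc n ≠ 4 := by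
    rcases cc_cases n with ⟨-, h', -⟩ | ⟨-, h', -⟩ | ⟨-, h', -⟩ | ⟨-, h', -⟩ <;> rw [h'] <;> norm_num
  obtain ⟨c, hcdef⟩ : ∃ c : ℕ, c = cc n := ⟨_, rfl⟩
  obtain ⟨N, hNdef⟩ : ∃ N : ℕ, N = NN n := ⟨_, rfl⟩
  rw [← hcdef, ← hNdef] at hE hS hnc hX4
  rw [← hNdef] at hN hq1
  rw [← hcdef] at hc5
  rcases hq1 with ((hq1 | hq1) | hq1) | hq1
  · omega
  · exact fam_A (x := N - q) hE hS hnc (by omega) (by omega) hw hq (hbE _ (by omega))
      (hbS _ (by omega)) hu1 hu2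
  · rcases le_or_gt (q + X) (3 * N) with hq2 | hq2
    · obtain ⟨x, y1, y2, h1, h2, h3⟩ := ex_B hq1 hq2
      exact fam_B (j := 0) hE hS hnc (by omega) h2 (by omega) (by omega) hw hq (hbE x h1) (hbS x h1)
        hu1 hu2
    · by_cases hc0 : 0 < c ∧ q + X ≤ 3 * N + c
      · obtain ⟨x, y1, y2, h1, h2, h3⟩ := ex_B (N := N) (X := X) (e := q - c) (by omega) (by omega)
        exact fam_B (j := 1) hE hS hnc (by omega) h2 (by omega) (by omega) hw hq (hbE x h1)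
          (hbS x h1) hu1 hu2
      · rcases le_or_gt q (4 * N) with hq3 | hq3
        · obtain ⟨x, y1, y2, h1, h2, h3⟩ := ex_G (N := N) (X := X) (e := q) (by omega) (by omega)
          exact fam_G (j := 0) hE hS hnc (by omega) h2 (by omega) (by omega) hw hq (hbE x h1)
            (hbS x h1) hu1 hu2
        · obtain ⟨x, y1, y2, h1, h2, h3⟩ := ex_G (N := N) (X := X) (e := q - c) (by omega) (by omega)
          exact fam_G (j := 1) hE hS hnc (by omega) h2 (by omega) (by omega) hw hq (hbE x h1)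
            (hbS x h1) hu1 hu2
  · -- family `C`
    obtain ⟨x2, hx2⟩ : ∃ x2 : ℕ, x2 = xx n q := ⟨_, rfl⟩
    obtain ⟨xp, hxp⟩ : ∃ xp : ℕ, xp = max (xx n q) (X3 n) := ⟨_, rfl⟩
    rw [← hxp, ← hx2] at hq1
    unfold covC at hq1
    simp only [Bool.and_eq_true, decide_eq_true_eq] at hq1
    obtain ⟨⟨⟨⟨⟨⟨⟨⟨⟨⟨t1, t2⟩, t3⟩, t4⟩, t5⟩, t6⟩, t7⟩, t8⟩, t9⟩, t10⟩, t11⟩ := hq1
    rw [← hcdef] at t10 t11
    obtain ⟨x0, hx0⟩ : ∃ x0 : ℕ, x0 = x2 + N - q := ⟨_, rfl⟩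
    rw [← hx0] at t2 t3 t5
    have t5R : 600 * (xp : ℝ) + 1005 ≤ 600 * (x2 + x0) := by exact_mod_cast t5
    have t6R : 1290 + (hSn n : ℝ) ≤ 600 * x2 := by exact_mod_cast t6
    have t7R : (hEn n : ℝ) < 600 * x2 + 90 := by exact_mod_cast t7
    have t8R : 1320 + (hEn n : ℝ) ≤ 600 * xp := by exact_mod_cast t8
    have t9R : (hSn n : ℝ) < 600 * xp + 120 := by exact_mod_cast t9
    exact fam_C2 (x0 := x0) (x1 := N - x0 - x2) (x2 := x2) (x1' := N - x0 - xp) (x2' := xp) hE hS hnc h1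
      (by omega) (by omega) t4 hm18 (by omega) t2 (by linarith) (by linarith) (by linarith)
      (by linarith) (by linarith) t10 t11 (by omega) hw hq hu1 hu2

end Pool.Agent.X214.NU
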