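import Pool.Agent.X214.NU.MW
import Pool.Agent.TH2.NU.Near4

/-! One doubling, with exact clusters and spectators. -/

set_option autoImplicit false

namespace Pool.Agent.X214.NU

open Finset Pool.Agent.TH176.Nag Pool.Agent.TH603.Sur Pool.Agent.TH641.UM Pool.Agent.TH2.NU

theorem sum3 (x y z a b e : ℕ) :
    (x • ({a} : Multiset ℕ) + (y • {b} + z • {e})).sum = x * a + (y * b + z * e) := by
  simp [Multiset.sum_add, Multiset.sum_nsmul]

theorem card3 (x y z a b e : ℕ) :
    (x • ({a} : Multiset ℕ) + (y • {b} + z • {e})).card = x + (y + z) := by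
  simp

/-- **one doubling** -/
theorem single {n N c d b b1 b2 x y1 y2 μ β : ℕ} {H H' : ℝ} (hE : WE n N c d H) (hS : WS n N c d H')
    (hx : 0 < x) (hN : x + (y1 + y2) = N) (hb1 : 1 ≤ b1) (hb2 : 1 ≤ b2)
    (v0 : β ≤ b ∧ b ≤ β + 1) (v1 : β ≤ b1 ∧ b1 ≤ β + 1) (v2 : β ≤ b2 ∧ b2 ≤ β + 1)
    (h1 : β ≤ 2 * μ + 1) (h2 : 2 * μ ≤ β + 1)
    (hl : 4 * ((x * b + (y1 * b1 + y2 * b2) : ℕ) : ℝ) + 2 * N + c + 2 * c * μ + H' <
      √(n : ℝ) * (2 * d + 3))
    (hu : √(n : ℝ) * (2 * d + 3) + H <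
      4 * ((x * b + (y1 * b1 + y2 * b2) : ℕ) : ℝ) + 4 * x + 2 * N + c + 2 * c * μ) :
    Sgn (x • q4 b + (y1 • r4 b1 + (y2 • r4 b2 + c • {μ}))) d := by
  refine Sgn_dbl hx ?_ ?_
  · have k1 := hS (x • ({b} : Multiset ℕ) + (y1 • {b1} + y2 • {b2})) μ β (by rw [card3, hN]) ?_ h1 h2
      (by rw [sum3]; exact hl)
    · have e1 : x • ({b} : Multiset ℕ) + (y1 • {b1} + y2 • {b2}) + c • {μ} =
          y1 • {b1} + (x • {b} + (y2 • {b2} + c • {μ})) := by abel
      rw [e1] at k1
      have k2 := exMS hb1 k1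
      have e2 : y1 • r4 b1 + (x • ({b} : Multiset ℕ) + (y2 • {b2} + c • {μ})) =
          y2 • {b2} + (x • {b} + (y1 • r4 b1 + c • {μ})) := by abel
      rw [e2] at k2
      have k3 := exMS hb2 k2
      have e3 : y2 • r4 b2 + (x • ({b} : Multiset ℕ) + (y1 • r4 b1 + c • {μ})) =
          x • {b} + (y1 • r4 b1 + (y2 • r4 b2 + c • {μ})) := by abel
      rw [e3] at k3
      exact k3
    · intro a ha
      rw [Multiset.mem_add, Multiset.mem_add] at ha
      rcases ha with ha | ha | ha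
      · have := Multiset.mem_singleton.1 (Multiset.mem_of_mem_nsmul ha)
        omega
      · have := Multiset.mem_singleton.1 (Multiset.mem_of_mem_nsmul ha)
        omega
      · have := Multiset.mem_singleton.1 (Multiset.mem_of_mem_nsmul ha)
        omega
  · have k1 := hE (x • ({b + 1} : Multiset ℕ) + (y1 • {b1} + y2 • {b2})) μ (by rw [card3, hN])
      (by
        rw [sum3]
        push_cast at hu ⊢
        linarith)
    have e1 : x • ({b + 1} : Multiset ℕ) + (y1 • {b1} + y2 • {b2}) + c • {μ} =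
        y1 • {b1} + (x • {b + 1} + (y2 • {b2} + c • {μ})) := by abel
    rw [e1] at k1
    have k2 := exM' hb1 k1
    have e2 : y1 • r4 b1 + (x • ({b + 1} : Multiset ℕ) + (y2 • {b2} + c • {μ})) =
        y2 • {b2} + (x • {b + 1} + (y1 • r4 b1 + c • {μ})) := by abel
    rw [e2] at k2
    have k3 := exM' hb2 k2
    have e3 : y2 • r4 b2 + (x • ({b + 1} : Multiset ℕ) + (y1 • r4 b1 + c • {μ})) =
        x • {b + 1} + (y1 • r4 b1 + (y2 • r4 b2 + c • {μ})) := by abel
    rw [e3] at k3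
    exact k3

/-! ### the multisets of the clusters -/

theorem fin22 (f : Fin 2 × Fin 2 → ℕ) : ms f = {f (0, 0)} + {f (0, 1)} + ({f (1, 0)} + {f (1, 1)}) := by
  unfold ms
  rw [Fintype.sum_prod_type]
  simp [Fin.sum_univ_two]

theorem q4_0 (m : ℕ) : q4 (2 * m) = 4 • ({m} : Multiset ℕ) := by
  unfold q4
  rw [fin22]
  have e1 : qv (2 * m) (0, 0) = m := by simp [qv]
  have e2 : qv (2 * m) (0, 1) = m := by simp [qv]
  have e3 : qv (2 * m) (1, 0) = m := by simp only [qv, Fin.val_one]; omega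
  have e4 : qv (2 * m) (1, 1) = m := by simp only [qv, Fin.val_one]; omega
  rw [e1, e2, e3, e4]
  abel

theorem q4_1 (m : ℕ) : q4 (2 * m + 1) = 2 • ({m} : Multiset ℕ) + 2 • {m + 1} := by
  unfold q4
  rw [fin22]
  have e1 : qv (2 * m + 1) (0, 0) = m := by simp only [qv, Fin.val_zero]; omega
  have e2 : qv (2 * m + 1) (0, 1) = m := by simp only [qv, Fin.val_zero]; omega
  have e3 : qv (2 * m + 1) (1, 0) = m + 1 := by simp only [qv, Fin.val_one]; omega
  have e4 : qv (2 * m + 1) (1, 1) = m + 1 := by simp only [qv, Fin.val_one]; omega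
  rw [e1, e2, e3, e4]
  abel

theorem r4_1 (m : ℕ) : r4 (2 * m + 1) = 3 • ({m} : Multiset ℕ) + {m + 1} := by
  have h : ms (rv (2 * m + 1)) = ms (Sum.elim (fun _ : Fin 3 => m) (fun _ : Fin 1 => m + 1)) := by
    refine ms_eq (m := m) ?_ ?_ ?_ ?_
    · rintro ⟨a, e⟩
      simp only [rv]
      have := a.2
      have := e.2
      omega
    · rintro (i | i) <;> simp
    · simp
    · rw [sum_rv_val, Fintype.sum_sum_type]
      simp only [Sum.elim_inl, Sum.elim_inr, sum_const, card_univ, Fintype.card_fin, smul_eq_mul]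
      omega
  unfold r4
  rw [h, ms_sum, ms_fin, ms_fin, one_smul]

theorem r4_2 (m : ℕ) : r4 (2 * m + 2) = {m} + 3 • ({m + 1} : Multiset ℕ) := by
  have h : ms (rv (2 * m + 2)) = ms (Sum.elim (fun _ : Fin 1 => m) (fun _ : Fin 3 => m + 1)) := by
    refine ms_eq (m := m) ?_ ?_ ?_ ?_
    · rintro ⟨a, e⟩
      simp only [rv]
      have := a.2
      have := e.2
      omega
    · rintro (i | i) <;> simp
    · simp
    · have h2 := sum_rv_val (2 * m + 1)
      rw [show 2 * m + 2 = 2 * m + 1 + 1 by ring, h2, Fintype.sum_sum_type]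
      simp only [Sum.elim_inl, Sum.elim_inr, sum_const, card_univ, Fintype.card_fin, smul_eq_mul]
      omega
  unfold r4
  rw [h, ms_sum, ms_fin, ms_fin, one_smul]

/-- the multiset of a near-uniform vector -/
theorem ms_near {n m q : ℕ} {w : Fin n → ℕ} (hw : ∀ i, w i = m ∨ w i = m + 1)
    (hq : ∑ i, w i = n * m + q) : q ≤ n ∧ ms w = (n - q) • {m} + q • {m + 1} := by
  have hqn : q ≤ n := by
    have h1 : ∑ i, w i ≤ ∑ _i : Fin n, (m + 1) := sum_le_sum fun i _ => by
      rcases hw i with h | h <;> omega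
    simp only [sum_const, card_univ, Fintype.card_fin, smul_eq_mul] at h1
    have e : n * (m + 1) = n * m + n := by ring
    omega
  refine ⟨hqn, ?_⟩
  have h : ms w = ms (Sum.elim (fun _ : Fin (n - q) => m) (fun _ : Fin q => m + 1)) := by
    refine ms_eq (m := m) hw ?_ ?_ ?_
    · rintro (i | i) <;> simp
    · simp [hqn]
    · rw [hq, Fintype.sum_sum_type]
      simp only [Sum.elim_inl, Sum.elim_inr, sum_const, card_univ, Fintype.card_fin, smul_eq_mul]
      obtain ⟨r, rfl⟩ := Nat.exists_eq_add_of_le hqn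
      rw [Nat.add_sub_cancel_left]
      ring
  rw [h, ms_sum, ms_fin, ms_fin]

/-- `A` copies of `m` and `B` copies of `m + 1` -/
theorem two_eq {m A B A' B' : ℕ} (h1 : A = A') (h2 : B = B') :
    A • ({m} : Multiset ℕ) + B • {m + 1} = A' • {m} + B' • {m + 1} := by rw [h1, h2]

end Pool.Agent.X214.NU
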