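import Pool.Agent.X214.NU.Sign

/-! The family with two doublings. -/

set_option autoImplicit false

namespace Pool.Agent.X214.NU

open Finset Pool.Agent.TH176.Nag Pool.Agent.TH603.Sur Pool.Agent.TH641.UM Pool.Agent.TH2.NU

theorem inner {n N c d m x0 x1 x2 p : ℕ} {H : ℝ} (hE : WE n N c d H) (hS : WS n N c d H)
    (hn : n = 4 * N + c) (hx : x0 + x1 + x2 = N) (h2 : 0 < x2) (hp : p ≤ x0) {T : ℝ}
    (hT : T = √(n : ℝ) * (2 * d + 3) - ((2 * m + 1) * n + 2 * N))
    (hl : H < T + 4 * p) (hu : T + 4 * p < 4 * x2 - H) : Sgn (Inn m c x0 x1 x2 p) d := by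
  have hnN : (n : ℝ) = 4 * N + c := by rw [hn]; push_cast; ring
  obtain ⟨t, rfl⟩ := Nat.exists_eq_add_of_le hp
  have hNx : (N : ℝ) = p + t + x1 + x2 := by rw [← hx]; push_cast; ring
  unfold Inn
  rw [Nat.add_sub_cancel_left]
  refine Sgn_dbl h2 ?_ ?_
  · have k1 := hS (p • ({2 * m} : Multiset ℕ) + ((t + x1) • {2 * m + 1} + x2 • {2 * m + 1})) m (2 * m)
      (by rw [card3]; omega) ?_ (by omega) (by omega) (by
        rw [sum3]
        rw [hT, hnN] at hl
        push_cast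
        rw [hnN]
        rw [hNx] at hl ⊢
        linarith)
    · have e1 : p • ({2 * m} : Multiset ℕ) + ((t + x1) • {2 * m + 1} + x2 • {2 * m + 1}) + c • {m} =
          x1 • {2 * m + 1} + (x2 • {2 * m + 1} + (p • {2 * m} + (t • {2 * m + 1} + c • {m}))) := by
        rw [add_smul]
        abel
      rw [e1] at k1
      have k2 := exMS (by omega) k1
      have e2 : x1 • r4 (2 * m + 1) + (x2 • ({2 * m + 1} : Multiset ℕ) +
          (p • {2 * m} + (t • {2 * m + 1} + c • {m}))) =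
          x2 • {2 * m + 1} + (p • {2 * m} + (t • {2 * m + 1} + (x1 • r4 (2 * m + 1) + c • {m}))) := by
        abel
      rw [e2] at k2
      exact k2
    · intro a ha
      rw [Multiset.mem_add, Multiset.mem_add] at ha
      rcases ha with ha | ha | ha
      · have := Multiset.mem_singleton.1 (Multiset.mem_of_mem_nsmul ha)
        omega
      · have := Multiset.mem_singleton.1 (Multiset.mem_of_mem_nsmul ha)
        omega
      · have := Multiset.mem_singleton.1 (Multiset.mem_of_mem_nsmul ha)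
        omega
  · have k1 := hE (p • ({2 * m} : Multiset ℕ) + ((t + x1) • {2 * m + 1} + x2 • {2 * m + 1 + 1})) m
      (by rw [card3]; omega) (by
        rw [sum3]
        rw [hT, hnN] at hu
        push_cast
        rw [hnN]
        rw [hNx] at hu ⊢
        linarith)
    have e1 : p • ({2 * m} : Multiset ℕ) + ((t + x1) • {2 * m + 1} + x2 • {2 * m + 1 + 1}) + c • {m} =
        x1 • {2 * m + 1} + (x2 • {2 * m + 1 + 1} + (p • {2 * m} + (t • {2 * m + 1} + c • {m}))) := by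
      rw [add_smul]
      abel
    rw [e1] at k1
    have k2 := exM' (by omega) k1
    have e2 : x1 • r4 (2 * m + 1) + (x2 • ({2 * m + 1 + 1} : Multiset ℕ) +
        (p • {2 * m} + (t • {2 * m + 1} + c • {m}))) =
        x2 • {2 * m + 1 + 1} + (p • {2 * m} + (t • {2 * m + 1} + (x1 • r4 (2 * m + 1) + c • {m}))) := by
      abel
    rw [e2] at k2
    exact k2

/-- family `C` -/
theorem fam_C {n N c d m q x0 x1 x2 : ℕ} {H : ℝ} (hE : WE n N c d H) (hS : WS n N c d H)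
    (hn : n = 4 * N + c) (hN : 8 ≤ N) (hc : c ≤ 5) (hx : x0 + x1 + x2 = N) (hm : 2 * N ≤ m)
    (hH : 0 ≤ H) (hx0 : 2 ≤ x0) (hx2 : 5 + H ≤ 2 * x2) (hqx : q + x0 = N + x2) {w : Fin n → ℕ}
    (hw : ∀ i, w i = m ∨ w i = m + 1) (hq : ∑ i, w i = n * m + q)
    (hu : |√(n : ℝ) * (2 * d + 3) - (n + 2 * (n * m + q))| ≤ 2.95) : Good w d := by
  obtain ⟨hqn, hms⟩ := ms_near hw hq
  obtain ⟨hu1, hu2⟩ := abs_le.1 hu
  obtain ⟨T, hT⟩ : ∃ T : ℝ, T = √(n : ℝ) * (2 * d + 3) - ((2 * m + 1) * n + 2 * N) := ⟨_, rfl⟩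
  have hqR : (q : ℝ) = N + x2 - x0 := by
    have : (q : ℝ) + x0 = N + x2 := by exact_mod_cast hqx
    linarith
  have hTu : T = √(n : ℝ) * (2 * d + 3) - (n + 2 * (n * m + q)) + 2 * (x2 - x0) := by
    rw [hT, hqR]; ring
  have hx0R : (2 : ℝ) ≤ x0 := by exact_mod_cast hx0
  have h2 : 0 < x2 := by
    have : (0 : ℝ) < x2 := by linarith
    exact_mod_cast this
  -- the two numbers
  obtain ⟨p1, hp1⟩ : ∃ p1 : ℕ, p1 = ⌊(2 * (x2 : ℝ) - 1 - T) / 4⌋₊ := ⟨_, rfl⟩
  have a1 : (p1 : ℝ) ≤ (2 * (x2 : ℝ) - 1 - T) / 4 := by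
    rw [hp1]
    apply Nat.floor_le
    rw [hTu]
    linarith
  have a2 : (2 * (x2 : ℝ) - 1 - T) / 4 < p1 + 1 := by
    rw [hp1]
    exact Nat.lt_floor_add_one _
  obtain ⟨p2, hp2⟩ : ∃ p2 : ℕ, p2 = ⌈(2 * (x2 : ℝ) + 1 - T) / 4⌉₊ := ⟨_, rfl⟩
  have b1 : (2 * (x2 : ℝ) + 1 - T) / 4 ≤ p2 := by
    rw [hp2]
    exact Nat.le_ceil _
  have b2 : (p2 : ℝ) < (2 * (x2 : ℝ) + 1 - T) / 4 + 1 := by
    rw [hp2]
    apply Nat.ceil_lt_add_one
    rw [hTu]
    linarith
  have p1x : p1 ≤ x0 := by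
    have : (p1 : ℝ) ≤ x0 := by
      refine a1.trans ?_
      rw [hTu]
      linarith
    exact_mod_cast this
  have p2x : p2 ≤ x0 := by
    have : (p2 : ℝ) < x0 + 1 := by
      refine b2.trans_le ?_
      rw [hTu]
      linarith
    have : p2 < x0 + 1 := by exact_mod_cast this
    omega
  have i1 := inner hE hS hn hx h2 p1x hT (by linarith) (by linarith)
  have i2 := inner hE hS hn hx h2 p2x hT (by linarith) (by linarith)
  have s1 := (Inn_sign hn hN hc hx p1x hm hT).1 (by linarith) (by linarith)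
  have s2 := (Inn_sign hn hN hc hx p2x hm hT).2 (by linarith)
  have j1 := i1.1 s1
  have j2 := i2.2 s2
  unfold Inn at j1 j2
  have hsg : Sgn (x0 • q4 (2 * m) + (x2 • q4 (2 * m + 1) + (x1 • r4 (2 * m + 1) + c • {m}))) d := by
    refine Sgn_dbl (by omega) ?_ ?_
    · have e1 : x2 • q4 (2 * m + 1) + (p2 • ({2 * m} : Multiset ℕ) + ((x0 - p2) • {2 * m + 1} +
          (x1 • r4 (2 * m + 1) + c • {m}))) = (x0 - p2) • {2 * m + 1} + (p2 • {2 * m} +
          (x2 • q4 (2 * m + 1) + (x1 • r4 (2 * m + 1) + c • {m}))) := by abel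
      rw [e1] at j2
      have j3 := j2.lower (Nat.le_succ (2 * m))
      have e2 : (x0 - p2) • ({2 * m} : Multiset ℕ) + (p2 • {2 * m} +
          (x2 • q4 (2 * m + 1) + (x1 • r4 (2 * m + 1) + c • {m}))) = x0 • {2 * m} +
          (x2 • q4 (2 * m + 1) + (x1 • r4 (2 * m + 1) + c • {m})) := by
        have e3 : x0 • ({2 * m} : Multiset ℕ) = (x0 - p2) • {2 * m} + p2 • {2 * m} := by
          rw [← add_smul, Nat.sub_add_cancel p2x]
        rw [e3]
        abel
      rw [e2] at j3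
      exact j3
    · have e1 : x2 • q4 (2 * m + 1) + (p1 • ({2 * m} : Multiset ℕ) + ((x0 - p1) • {2 * m + 1} +
          (x1 • r4 (2 * m + 1) + c • {m}))) = p1 • {2 * m} + ((x0 - p1) • {2 * m + 1} +
          (x2 • q4 (2 * m + 1) + (x1 • r4 (2 * m + 1) + c • {m}))) := by abel
      rw [e1] at j1
      have j3 := Pool.Agent.TH2.NU.EmpM.raise (Nat.le_succ (2 * m)) j1
      have e2 : p1 • ({2 * m + 1} : Multiset ℕ) + ((x0 - p1) • {2 * m + 1} +
          (x2 • q4 (2 * m + 1) + (x1 • r4 (2 * m + 1) + c • {m}))) = x0 • {2 * m + 1} +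
          (x2 • q4 (2 * m + 1) + (x1 • r4 (2 * m + 1) + c • {m})) := by
        have e3 : x0 • ({2 * m + 1} : Multiset ℕ) = (x0 - p1) • {2 * m + 1} + p1 • {2 * m + 1} := by
          rw [← add_smul, Nat.sub_add_cancel p1x]
        rw [e3]
        abel
      rw [e2] at j3
      exact j3
  refine Sgn_of_ms ?_ hsg
  rw [hms]
  have e := sp' (Nat.zero_le 1) c m
  rw [add_zero] at e
  rw [q4_0', r4_1', q4_1, e, cl_eq]
  exact two_eq (by omega) (by omega)

end Pool.Agent.X214.NU
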