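import Pool.Agent.X214.NU.Fam

/-! The three families with one doubling. -/

set_option autoImplicit false

namespace Pool.Agent.X214.NU

open Finset Pool.Agent.TH176.Nag Pool.Agent.TH603.Sur Pool.Agent.TH641.UM Pool.Agent.TH2.NU

/-- both signs -/
def Good {ι : Type} [Fintype ι] (w : ι → ℕ) (d : ℕ) : Prop :=
  ((d + 2).choose 2 ≤ cond w → Emp w (TZ d)) ∧ (cond w ≤ (d + 2).choose 2 → Sur w (TZ d))

theorem cl_eq (x a0 a1 y b0 b1 z e0 e1 f0 f1 m : ℕ) :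
    x • (a0 • ({m} : Multiset ℕ) + a1 • {m + 1}) + (y • (b0 • {m} + b1 • {m + 1}) +
      (z • (e0 • {m} + e1 • {m + 1}) + (f0 • {m} + f1 • {m + 1}))) =
    (x * a0 + y * b0 + z * e0 + f0) • {m} + (x * a1 + y * b1 + z * e1 + f1) • {m + 1} := by
  simp only [smul_add, smul_smul, add_smul]
  abel

theorem q4_0' (m : ℕ) : q4 (2 * m) = 4 • ({m} : Multiset ℕ) + 0 • {m + 1} := by
  rw [q4_0, zero_smul, add_zero]

theorem q4_2' (m : ℕ) : q4 (2 * m + 2) = 0 • ({m} : Multiset ℕ) + 4 • {m + 1} := by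
  have := q4_0 (m + 1)
  rw [show 2 * (m + 1) = 2 * m + 2 by ring] at this
  rw [this, zero_smul, zero_add]

theorem r4_1' (m : ℕ) : r4 (2 * m + 1) = 3 • ({m} : Multiset ℕ) + 1 • {m + 1} := by
  rw [r4_1, one_smul]

theorem r4_2' (m : ℕ) : r4 (2 * m + 2) = 1 • ({m} : Multiset ℕ) + 3 • {m + 1} := by
  rw [r4_2, one_smul]

theorem sp' {j : ℕ} (hj : j ≤ 1) (c m : ℕ) :
    c • ({m + j} : Multiset ℕ) = (c * (1 - j)) • {m} + (c * j) • {m + 1} := by
  rcases (by omega : j = 0 ∨ j = 1) with rfl | rfl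
  · simp
  · simp

/-- family `A` -/
theorem fam_A {n N c d m q x : ℕ} {H H' θ θ' : ℝ} (hE : WE n N c d H) (hS : WS n N c d H')
    (hn : n = 4 * N + c) (hx : 0 < x) (hxN : x + q = N) {w : Fin n → ℕ}
    (hw : ∀ i, w i = m ∨ w i = m + 1) (hq : ∑ i, w i = n * m + q) (hX : H + θ < 2 * x) (hX' : H' + θ' < 2 * x)
    (hu1 : -θ' ≤ √(n : ℝ) * (2 * d + 3) - (n + 2 * (n * m + q)))
    (hu2 : √(n : ℝ) * (2 * d + 3) - (n + 2 * (n * m + q)) ≤ θ) : Good w d := by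
  obtain ⟨hqn, hms⟩ := ms_near hw hq
  have hnR : (n : ℝ) = 4 * (x + q) + c := by
    rw [hn, ← hxN]; push_cast; ring
  have hNR : (N : ℝ) = x + q := by rw [← hxN]; push_cast; ring
  have hsg := single (n := n) (N := N) (c := c) (d := d) (b := 2 * m) (b1 := 2 * m + 1)
    (b2 := 2 * m + 1) (x := x) (y1 := q) (y2 := 0) (μ := m) (β := 2 * m) (H := H) (H' := H') hE hS hx
    (by omega) (by omega) (by omega) (by omega) (by omega) (by omega) (by omega) (by omega)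
    (by
      obtain ⟨S, hS'⟩ : ∃ S : ℝ, S = √(n : ℝ) * (2 * d + 3) := ⟨_, rfl⟩
      rw [← hS'] at hu1 hu2 ⊢
      rw [hnR] at hu1 hu2
      rw [hNR]
      push_cast
      linarith)
    (by
      obtain ⟨S, hS'⟩ : ∃ S : ℝ, S = √(n : ℝ) * (2 * d + 3) := ⟨_, rfl⟩
      rw [← hS'] at hu1 hu2 ⊢
      rw [hnR] at hu1 hu2
      rw [hNR]
      push_cast
      linarith)
  refine Sgn_of_ms ?_ hsg
  rw [hms]
  have e := sp' (Nat.zero_le 1) c m
  rw [add_zero] at e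
  rw [q4_0', r4_1', e, cl_eq]
  exact two_eq (by omega) (by omega)

/-- family `B` -/
theorem fam_B {n N c d m q x y1 y2 j : ℕ} {H H' θ θ' : ℝ} (hE : WE n N c d H) (hS : WS n N c d H')
    (hn : n = 4 * N + c) (hx : 0 < x) (hxN : x + (y1 + y2) = N) (hj : j ≤ 1)
    (hqx : q = 2 * x + y1 + 3 * y2 + c * j) {w : Fin n → ℕ}
    (hw : ∀ i, w i = m ∨ w i = m + 1) (hq : ∑ i, w i = n * m + q) (hX : H + θ < 2 * x) (hX' : H' + θ' < 2 * x)
    (hu1 : -θ' ≤ √(n : ℝ) * (2 * d + 3) - (n + 2 * (n * m + q)))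
    (hu2 : √(n : ℝ) * (2 * d + 3) - (n + 2 * (n * m + q)) ≤ θ) : Good w d := by
  obtain ⟨hqn, hms⟩ := ms_near hw hq
  have hnR : (n : ℝ) = 4 * (x + (y1 + y2)) + c := by
    rw [hn, ← hxN]; push_cast; ring
  have hNR : (N : ℝ) = x + (y1 + y2) := by rw [← hxN]; push_cast; ring
  have hqR : (q : ℝ) = 2 * x + y1 + 3 * y2 + c * j := by rw [hqx]; push_cast; ring
  have hsg := single (n := n) (N := N) (c := c) (d := d) (b := 2 * m + 1) (b1 := 2 * m + 1)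
    (b2 := 2 * m + 2) (x := x) (y1 := y1) (y2 := y2) (μ := m + j) (β := 2 * m + 1) (H := H) (H' := H') hE hS hx
    hxN (by omega) (by omega) (by omega) (by omega) (by omega) (by omega) (by omega)
    (by
      obtain ⟨S, hS'⟩ : ∃ S : ℝ, S = √(n : ℝ) * (2 * d + 3) := ⟨_, rfl⟩
      rw [← hS'] at hu1 hu2 ⊢
      rw [hnR, hqR] at hu1 hu2
      rw [hNR]
      push_cast
      linarith)
    (by
      obtain ⟨S, hS'⟩ : ∃ S : ℝ, S = √(n : ℝ) * (2 * d + 3) := ⟨_, rfl⟩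
      rw [← hS'] at hu1 hu2 ⊢
      rw [hnR, hqR] at hu1 hu2
      rw [hNR]
      push_cast
      linarith)
  refine Sgn_of_ms ?_ hsg
  rw [hms, q4_1, r4_1', r4_2', sp' hj, cl_eq]
  have hcj : c * (1 - j) + c * j = c := by
    rw [← mul_add]
    have : 1 - j + j = 1 := by omega
    rw [this, mul_one]
  exact two_eq (by omega) (by omega)

/-- family `G` -/
theorem fam_G {n N c d m q x y1 y2 j : ℕ} {H H' θ θ' : ℝ} (hE : WE n N c d H) (hS : WS n N c d H')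
    (hn : n = 4 * N + c) (hx : 0 < x) (hxN : x + (y1 + y2) = N) (hj : j ≤ 1)
    (hqx : q = 4 * x + y1 + 3 * y2 + c * j) {w : Fin n → ℕ}
    (hw : ∀ i, w i = m ∨ w i = m + 1) (hq : ∑ i, w i = n * m + q) (hX : H + θ < 2 * x) (hX' : H' + θ' < 2 * x)
    (hu1 : -θ' ≤ √(n : ℝ) * (2 * d + 3) - (n + 2 * (n * m + q)))
    (hu2 : √(n : ℝ) * (2 * d + 3) - (n + 2 * (n * m + q)) ≤ θ) : Good w d := by
  obtain ⟨hqn, hms⟩ := ms_near hw hq
  have hnR : (n : ℝ) = 4 * (x + (y1 + y2)) + c := by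
    rw [hn, ← hxN]; push_cast; ring
  have hNR : (N : ℝ) = x + (y1 + y2) := by rw [← hxN]; push_cast; ring
  have hqR : (q : ℝ) = 4 * x + y1 + 3 * y2 + c * j := by rw [hqx]; push_cast; ring
  have hsg := single (n := n) (N := N) (c := c) (d := d) (b := 2 * m + 2) (b1 := 2 * m + 1)
    (b2 := 2 * m + 2) (x := x) (y1 := y1) (y2 := y2) (μ := m + j) (β := 2 * m + 1) (H := H) (H' := H') hE hS hx
    hxN (by omega) (by omega) (by omega) (by omega) (by omega) (by omega) (by omega)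
    (by
      obtain ⟨S, hS'⟩ : ∃ S : ℝ, S = √(n : ℝ) * (2 * d + 3) := ⟨_, rfl⟩
      rw [← hS'] at hu1 hu2 ⊢
      rw [hnR, hqR] at hu1 hu2
      rw [hNR]
      push_cast
      linarith)
    (by
      obtain ⟨S, hS'⟩ : ∃ S : ℝ, S = √(n : ℝ) * (2 * d + 3) := ⟨_, rfl⟩
      rw [← hS'] at hu1 hu2 ⊢
      rw [hnR, hqR] at hu1 hu2
      rw [hNR]
      push_cast
      linarith)
  refine Sgn_of_ms ?_ hsg
  rw [hms, q4_2', r4_1', r4_2', sp' hj, cl_eq]
  have hcj : c * (1 - j) + c * j = c := by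
    rw [← mul_add]
    have : 1 - j + j = 1 := by omega
    rw [this, mul_one]
  exact two_eq (by omega) (by omega)

end Pool.Agent.X214.NU
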