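import Pool.Agent.X214.NU.Crit2
import Pool.Agent.X214.NU.Red

/-! All degrees. -/

set_option autoImplicit false

namespace Pool.Agent.X214.NU

open Finset Pool.Agent.TH176.Nag Pool.Agent.TH603.Sur Pool.Agent.TH641.UM Pool.Agent.TH2.NU
open Pool.Agent.H932R3

/-- from the critical window to all degrees -/
theorem near_of_window2 {n m : ℕ} (hn : 10 ≤ n) (hm1 : 1 ≤ m) {w : Fin n → ℕ}
    (hw : ∀ i, w i = m ∨ w i = m + 1)
    (H : (n : ℝ) - 6 * √(n : ℝ) + 10 ≤ m → ∀ d : ℕ,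
      -(2 * √(n : ℝ) / 3 + 9 / 4) ≤ √(n : ℝ) * (2 * d + 3) - (n + 2 * (∑ i, (w i : ℝ))) →
      √(n : ℝ) * (2 * d + 3) - (n + 2 * (∑ i, (w i : ℝ))) ≤ 2 * √(n : ℝ) / 3 + 1 / 4 → Good w d)
    {L : Type} [Field L] [CharZero L] :
    ∃ F : MvPolynomial (Fin n × Fin 2) ℚ, F ≠ 0 ∧ ∀ (P : Fin n → Fin 2 → L),
      MvPolynomial.aeval (fun ij : Fin n × Fin 2 => P ij.1 ij.2) F ≠ 0 →
      ∀ d : ℕ, ExpDim L w P d := by
  rcases le_or_gt (((m + 1 : ℕ) : ℝ)) ((n : ℝ) - 6 * √(n : ℝ) + 11) with hsm | hlg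
  · obtain ⟨F, hF, hF'⟩ := near_points (L := L) (n := n) (m := m) hn hm1 (w := w)
      hw (near_cond (by omega) hw (Or.inl hsm))
    exact ⟨F, hF, fun P hP d => hF' P hP d⟩
  have hmR : (n : ℝ) - 6 * √(n : ℝ) + 10 ≤ m := by push_cast at hlg; linarith
  have hcr := H hmR
  obtain ⟨F1, hF1, h1⟩ := Pool.Agent.TH434.NW.near_win (L := L) hn hm1 hw
  have hnR : (10 : ℝ) ≤ n := by exact_mod_cast hn
  have hs1 : 1 ≤ √(n : ℝ) := Real.one_le_sqrt.2 (by linarith)
  have hs0 : 0 < √(n : ℝ) := by linarith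
  have hss : √(n : ℝ) * √(n : ℝ) = n := Real.mul_self_sqrt (by linarith)
  obtain ⟨W, hW⟩ : ∃ W : ℝ, W = ∑ i, (w i : ℝ) := ⟨_, rfl⟩
  rw [← hW] at hcr h1
  obtain ⟨X, hX⟩ : ∃ X : ℝ, X = n + 2 * W + (2 * √(n : ℝ) / 3 + 9 / 4) := ⟨_, rfl⟩
  obtain ⟨F2, hF2, h2⟩ := expDim_two (w := w)
    (A := fun d => (-(2 * √(n : ℝ) / 3 + 9 / 4) ≤ √(n : ℝ) * (2 * d + 3) - (n + 2 * W) ∧
      √(n : ℝ) * (2 * d + 3) - (n + 2 * W) ≤ 2 * √(n : ℝ) / 3 + 1 / 4) ∧
      (d + 2).choose 2 ≤ Pool.Agent.TH603.Sur.cond w)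
    (B := fun d => (-(2 * √(n : ℝ) / 3 + 9 / 4) ≤ √(n : ℝ) * (2 * d + 3) - (n + 2 * W) ∧
      √(n : ℝ) * (2 * d + 3) - (n + 2 * W) ≤ 2 * √(n : ℝ) / 3 + 1 / 4) ∧
      Pool.Agent.TH603.Sur.cond w ≤ (d + 2).choose 2)
    ⌈X⌉₊ (fun d hd => by
      have h3 := hd.1.2
      have h4 := Nat.le_ceil X
      have h5 : (0 : ℝ) ≤ d := Nat.cast_nonneg d
      have h6 : (d : ℝ) ≤ √(n : ℝ) * (2 * d + 3) := by nlinarith
      have h7 : (d : ℝ) ≤ (⌈X⌉₊ : ℝ) := by linarith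
      exact_mod_cast h7)
    (fun d hd => (hcr d hd.1.1 hd.1.2).1 hd.2) (fun d hd => (hcr d hd.1.1 hd.1.2).2 hd.2)
  refine ⟨F1 * F2, mul_ne_zero hF1 hF2, fun P hP d => ?_⟩
  rw [map_mul] at hP
  have e1 : ∀ a : ℝ, √(n : ℝ) * (2 / 3 + a / (4 * √(n : ℝ))) = 2 / 3 * √(n : ℝ) + a / 4 := by
    intro a
    field_simp
  have e2 : √(n : ℝ) * (√(n : ℝ) + 2 * W / √(n : ℝ)) = n + 2 * W := by
    rw [mul_add, hss]
    congr 1
    field_simp
  rcases le_or_gt (√(n : ℝ) * (2 * d + 3) - (n + 2 * W)) (2 * √(n : ℝ) / 3 + 1 / 4) with ha | ha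
  · rcases le_or_gt (-(2 * √(n : ℝ) / 3 + 9 / 4)) (√(n : ℝ) * (2 * d + 3) - (n + 2 * W)) with hb | hb
    · refine h2 P (right_ne_zero_of_mul hP) d ?_
      rcases le_total ((d + 2).choose 2) (Pool.Agent.TH603.Sur.cond w) with h3 | h3
      · exact Or.inl ⟨⟨hb, ha⟩, h3⟩
      · exact Or.inr ⟨⟨hb, ha⟩, h3⟩
    · refine h1 P (left_ne_zero_of_mul hP) d ?_
      left
      refine lt_of_le_of_lt (min_le_right _ _) ?_
      refine lt_of_mul_lt_mul_left ?_ hs0.le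
      rw [e1, mul_sub, e2]
      linarith
  · refine h1 P (left_ne_zero_of_mul hP) d ?_
    right
    refine lt_of_le_of_lt (min_le_right _ _) ?_
    refine lt_of_mul_lt_mul_left ?_ hs0.le
    rw [e1, mul_sub, e2]
    linarith

/-- the region -/
def RR (n q : ℕ) : Prop := 2 * n ≤ 7 * q ∨ 11 * q ≤ n ∨ 112 ≤ n ∨
  (n % 4 = 0 ∧ (n ≤ 60 ∨ 80 ≤ n)) ∨ (n % 2 = 0 ∧ (n ≤ 44 ∨ 100 ≤ n))

/-- the region, `Bool` -/
def RRb (n q : ℕ) : Bool := decide (2 * n ≤ 7 * q) || decide (11 * q ≤ n) || decide (112 ≤ n) ||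
  (decide (n % 4 = 0) && (decide (n ≤ 60) || decide (80 ≤ n))) ||
  (decide (n % 2 = 0) && (decide (n ≤ 44) || decide (100 ≤ n)))

/-- the check of the shifts -/
def chkS (n q : ℕ) : Bool := !(RRb n q) ||
  ((decide (q + (rt n + 23) / 300 < (ab n).1) || decide ((ab n).2 < q)) &&
  (decide (q < (ab n).1) || decide ((ab n).2 + (rt n + 196) / 300 < q)) &&
  decide ((rt n + 23) / 300 < (ab n).1) && decide ((ab n).2 + (rt n + 196) / 300 < n) &&
  decide ((rt n + 196) / 300 ≤ 4))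

theorem chkS_all : (List.range 102).all
    (fun i => (List.range (i + 37)).all (chkS (i + 36))) = true := by
  decide +kernel

theorem chkS_n {n q : ℕ} (h1 : 36 ≤ n) (h2 : n ≤ 137) (hq : q ≤ n) (h : RR n q) :
    (q + (rt n + 23) / 300 < (ab n).1 ∨ (ab n).2 < q) ∧
    (q < (ab n).1 ∨ (ab n).2 + (rt n + 196) / 300 < q) ∧
    (rt n + 23) / 300 < (ab n).1 ∧ (ab n).2 + (rt n + 196) / 300 < n ∧ (rt n + 196) / 300 ≤ 4 := by
  have h3 := List.all_eq_true.1 chkS_all (n - 36) (List.mem_range.2 (by omega))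
  have h4 := List.all_eq_true.1 h3 q (List.mem_range.2 (by omega))
  rw [Nat.sub_add_cancel h1] at h4
  unfold chkS at h4
  have h5 : RRb n q = true := by
    unfold RRb
    simp only [Bool.or_eq_true, Bool.and_eq_true, decide_eq_true_eq]
    unfold RR at h
    tauto
  rw [h5] at h4
  simp only [Bool.not_true, Bool.false_or, Bool.or_eq_true, Bool.and_eq_true, decide_eq_true_eq] at h4
  obtain ⟨⟨⟨⟨k1, k2⟩, k3⟩, k4⟩, k5⟩ := h4
  exact ⟨k1, k2, k3, k4, k5⟩

theorem sign_neg' {n m q d : ℕ} (hn : 36 ≤ n) {w : Fin n → ℕ} (hw : ∀ i, w i = m ∨ w i = m + 1)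
    (hq : ∑ i, w i = n * m + q) (hm : (n : ℝ) - 6 * √(n : ℝ) + 9 ≤ m)
    (hu : √(n : ℝ) * (2 * d + 3) - (n + 2 * (n * m + q)) ≤ -0.95)
    (hu' : -(n : ℝ) ≤ √(n : ℝ) * (2 * d + 3) - (n + 2 * (n * m + q))) :
    (d + 2).choose 2 < cond w := by
  obtain ⟨hqn, -⟩ := ms_near hw hq
  have hnR : (36 : ℝ) ≤ n := by exact_mod_cast hn
  have hqR : (q : ℝ) ≤ n := by exact_mod_cast hqn
  have hq0 : (0 : ℝ) ≤ q := Nat.cast_nonneg q
  have e1 := cond_near hw hq
  have e2 := card_sq n d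
  -- the bound for `m`
  have h38 : (n : ℝ) ≤ 3.8 * m + 1.95 := by
    obtain ⟨s, hs⟩ : ∃ s : ℝ, s = √(n : ℝ) := ⟨_, rfl⟩
    have hss : s * s = n := by rw [hs]; exact Real.mul_self_sqrt (by linarith)
    have hs6 : 6 ≤ s := by rw [hs]; exact Real.le_sqrt_of_sq_le (by norm_num; linarith)
    rw [← hs, ← hss] at hm
    rw [← hss]
    nlinarith [mul_nonneg (sub_nonneg.2 hs6) (by linarith : 0 ≤ 2.8 * s - 6)]
  obtain ⟨u, hu2⟩ : ∃ u : ℝ, u = √(n : ℝ) * (2 * d + 3) - (n + 2 * (n * m + q)) := ⟨_, rfl⟩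
  have e3 : √(n : ℝ) * (2 * d + 3) = n + 2 * (n * m + q) + u := by rw [hu2]; ring
  rw [e3] at e2
  rw [← hu2] at hu hu'
  obtain ⟨A, hA⟩ : ∃ A : ℝ, A = n + 2 * (n * m + q) := ⟨_, rfl⟩
  have hA1 : n * (2 * m + 1) ≤ A := by rw [hA]; nlinarith
  have h : 8 * n * (((d + 2).choose 2 : ℕ) : ℝ) < 8 * (n : ℝ) * ((cond w : ℕ) : ℝ) := by
    rw [e2]
    have : 8 * (n : ℝ) * ((cond w : ℕ) : ℝ) = 4 * n * (2 * ((cond w : ℕ) : ℝ)) := by ring
    rw [this, e1]
    have e4 : 4 * (n : ℝ) * ((m + 1) * (n * m + 2 * q)) = A ^ 2 - (n - 2 * q) ^ 2 := by rw [hA]; ring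
    rw [e4, ← hA]
    have h5 : u * (2 * A + u) ≤ -0.95 * (2 * A + u) :=
      mul_le_mul_of_nonneg_right hu (by nlinarith)
    have h6 : (n - 2 * (q : ℝ)) ^ 2 ≤ n ^ 2 := by
      apply sq_le_sq'
      · linarith
      · linarith
    have h7 : n * n ≤ n * (3.8 * (m : ℝ) + 1.95) := mul_le_mul_of_nonneg_left h38 (by linarith)
    nlinarith
  have h2 := lt_of_mul_lt_mul_left h (by positivity)
  exact_mod_cast h2

/-- the window, `36 ≤ n ≤ 137` -/
theorem good_all2 {n m q d : ℕ} (hn1 : 36 ≤ n) (hn2 : n ≤ 137) {w : Fin n → ℕ}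
    (hw : ∀ i, w i = m ∨ w i = m + 1)
    (hq : ∑ i, w i = n * m + q) (hm : (n : ℝ) - 6 * √(n : ℝ) + 10 ≤ m) (hreg : RR n q)
    (hu1 : -(2 * √(n : ℝ) / 3 + 9 / 4) ≤ √(n : ℝ) * (2 * d + 3) - (n + 2 * (n * m + q)))
    (hu2 : √(n : ℝ) * (2 * d + 3) - (n + 2 * (n * m + q)) ≤ 2 * √(n : ℝ) / 3 + 1 / 4) : Good w d := by
  obtain ⟨hqn, -⟩ := ms_near hw hq
  obtain ⟨r1, r2, r3, r4, r5⟩ := chkS_n hn1 hn2 hqn hreg
  have hc := chk_n hn1 hn2
  unfold chk at hc
  simp only [Bool.and_eq_true, decide_eq_true_eq] at hc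
  obtain ⟨⟨⟨t1, t2⟩, -⟩, -⟩ := hc
  obtain ⟨s1, s2⟩ := rt_bd t1 t2
  have hnR : (36 : ℝ) ≤ n := by exact_mod_cast hn1
  obtain ⟨s, hs⟩ : ∃ s : ℝ, s = √(n : ℝ) := ⟨_, rfl⟩
  have hss : s * s = n := by rw [hs]; exact Real.mul_self_sqrt (by linarith)
  have hs6 : 6 ≤ s := by rw [hs]; exact Real.le_sqrt_of_sq_le (by norm_num; linarith)
  have hs0 : 0 < s := by linarith
  rw [← hs] at hm hu1 hu2 s1 s2
  have hm10 : 10 ≤ m := by
    have : (10 : ℝ) ≤ m := by
      rw [← hss] at hm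
      nlinarith
    exact_mod_cast this
  have hsn : s ≤ n := by rw [← hss]; nlinarith
  obtain ⟨u, hu0⟩ : ∃ u : ℝ, u = s * (2 * d + 3) - (n + 2 * (n * m + q)) := ⟨_, rfl⟩
  rw [← hu0] at hu1 hu2
  rcases le_or_gt u 2.1 with h21 | h21
  · rcases le_or_gt (-2.95) u with h295 | h295
    · exact crit2 hn1 hn2 hw hq (by rw [← hs]; linarith) (by omega) (by rw [← hs, ← hu0]; exact h295)
        (by rw [← hs, ← hu0]; exact h21)
    · -- lowering
      obtain ⟨k, hk1, hk2⟩ : ∃ k : ℕ, -2.95 ≤ u + 2 * k ∧ u + 2 * (k : ℝ) < -0.95 := by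
        refine ⟨⌈(-u - 2.95) / 2⌉₊, ?_, ?_⟩
        · have := Nat.le_ceil ((-u - 2.95) / 2)
          linarith
        · have := Nat.ceil_lt_add_one (show 0 ≤ (-u - 2.95) / 2 by linarith)
          linarith
      have hk3 : k ≤ (rt n + 196) / 300 := by
        have : (300 * k : ℝ) < rt n + 196 := by linarith
        have : 300 * k < rt n + 196 := by exact_mod_cast this
        omega
      obtain ⟨m', w', h0, h1, h2, h3, h4⟩ := lowerk (by omega) hw k (by omega)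
      obtain ⟨q', hq'⟩ := ex_q h2
      obtain ⟨hqn', -⟩ := ms_near h2 hq'
      have h5 : n * m' + q' + k = n * m + q := by omega
      have h5R : (n : ℝ) * m' + q' + k = n * m + q := by exact_mod_cast h5
      have hmm : m ≤ m' + 1 := by
        by_contra hcon
        obtain ⟨t, rfl⟩ := Nat.exists_eq_add_of_le (show m' + 2 ≤ m by omega)
        have : n * (m' + 2 + t) = n * m' + 2 * n + n * t := by ring
        rw [this] at h5
        omega
      have hmmR : (m : ℝ) ≤ m' + 1 := by exact_mod_cast hmm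
      have hu' : s * (2 * d + 3) - (n + 2 * (n * m' + q')) = u + 2 * k := by
        have : (n : ℝ) * m' + q' = n * m + q - k := by linarith
        rw [this, hu0]; ring
      have g := crit2 (d := d) hn1 hn2 h2 hq' (by rw [← hs]; linarith) (by
        rcases Nat.eq_or_lt_of_le h0 with h6 | h6
        · subst h6
          omega
        · obtain ⟨t, rfl⟩ := Nat.exists_eq_add_of_le (Nat.succ_le_of_lt h6)
          have : n * (m'.succ + t) = n * m' + n + n * t := by rw [Nat.succ_eq_add_one]; ring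
          rw [this] at h5
          omega) (by
        rw [← hs, hu']
        exact hk1) (by
        rw [← hs, hu']
        linarith)
      have s1 := sign_neg' (d := d) hn1 h2 hq' (by rw [← hs]; linarith) (by rw [← hs, hu']; linarith)
        (by rw [← hs, hu']; linarith)
      have s2 := sign_neg' (d := d) hn1 hw hq (by rw [← hs]; linarith)
        (by rw [← hs, ← hu0]; linarith) (by rw [← hs, ← hu0]; linarith)
      refine ⟨fun _ => ?_, fun h => absurd h (by omega)⟩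
      exact Emp_emb id Function.injective_id h3 (g.1 s1.le)
  · -- raising
    obtain ⟨k, hk1, hk2⟩ : ∃ k : ℕ, u - 2 * k ≤ 2.1 ∧ 0.1 < u - 2 * (k : ℝ) := by
      refine ⟨⌈(u - 2.1) / 2⌉₊, ?_, ?_⟩
      · have := Nat.le_ceil ((u - 2.1) / 2)
        linarith
      · have := Nat.ceil_lt_add_one (show 0 ≤ (u - 2.1) / 2 by linarith)
        linarith
    have hk3 : k ≤ (rt n + 23) / 300 := by
      have : (300 * k : ℝ) < rt n + 24 := by linarith
      have : 300 * k < rt n + 24 := by exact_mod_cast this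
      omega
    obtain ⟨m', w', h1, h2, h3, h4⟩ := raisek (by omega) hw k
    obtain ⟨q', hq'⟩ := ex_q h2
    obtain ⟨hqn', -⟩ := ms_near h2 hq'
    have h5 : n * m' + q' = n * m + q + k := by omega
    have h5R : (n : ℝ) * m' + q' = n * m + q + k := by exact_mod_cast h5
    have hm' : (m : ℝ) ≤ m' := by exact_mod_cast h1
    have hu' : s * (2 * d + 3) - (n + 2 * (n * m' + q')) = u - 2 * k := by
      rw [h5R, hu0]; ring
    have g := crit2 (d := d) hn1 hn2 h2 hq' (by rw [← hs]; linarith) (by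
      rcases Nat.eq_or_lt_of_le h1 with h6 | h6
      · subst h6
        omega
      · obtain ⟨t, rfl⟩ := Nat.exists_eq_add_of_le (Nat.succ_le_of_lt h6)
        have : n * (m.succ + t) = n * m + n + n * t := by rw [Nat.succ_eq_add_one]; ring
        rw [this] at h5
        omega) (by
      rw [← hs, hu']
      linarith) (by
      rw [← hs, hu']
      exact hk1)
    have s1 := sign_pos (d := d) (by omega) h2 hq' (by omega) (by rw [← hs, hu']; linarith)
    have s2 := sign_pos (d := d) (by omega) hw hq (by omega) (by rw [← hs, ← hu0]; linarith)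
    refine ⟨fun h => absurd h (by omega), fun _ => ?_⟩
    exact Pool.Agent.TH2.NU.Sur_anti h3 (g.2 s1.le)

/-- **Every degree**, near-uniform multiplicities. -/
theorem near_all2 {n m : ℕ} (hn : 36 ≤ n) (hm1 : 1 ≤ m) {w : Fin n → ℕ}
    (hw : ∀ i, w i = m ∨ w i = m + 1)
    (hreg : RR n (univ.filter fun i => w i = m + 1).card)
    {L : Type} [Field L] [CharZero L] :
    ∃ F : MvPolynomial (Fin n × Fin 2) ℚ, F ≠ 0 ∧ ∀ (P : Fin n → Fin 2 → L),
      MvPolynomial.aeval (fun ij : Fin n × Fin 2 => P ij.1 ij.2) F ≠ 0 →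
      ∀ d : ℕ, ExpDim L w P d := by
  rcases le_or_gt 138 n with h138 | h138
  · exact near_all (by omega) hm1 hw (Or.inr h138)
  have hq : ∑ i, w i = n * m + (univ.filter fun i => w i = m + 1).card := by
    have h2 : ∀ i, w i = m + if w i = m + 1 then 1 else 0 := by
      intro i
      rcases hw i with h | h
      · rw [if_neg (by omega), h, add_zero]
      · rw [if_pos h, h]
    rw [sum_congr rfl fun i _ => h2 i, sum_add_distrib, sum_const, card_univ, Fintype.card_fin,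
      smul_eq_mul, card_filter]
  have hqR : (∑ i, (w i : ℝ)) = n * m + ((univ.filter fun i => w i = m + 1).card : ℕ) := by
    have := congrArg (Nat.cast : ℕ → ℝ) hq
    push_cast at this ⊢
    exact this
  refine near_of_window2 (by omega) hm1 hw ?_
  intro hm d hu1 hu2
  rw [hqR] at hu1 hu2
  exact good_all2 hn (by omega) hw hq hm hreg hu1 hu2

end Pool.Agent.X214.NU
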