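import Pool.Agent.X214.NU.FamC2
import Pool.Agent.X214.NU.Crit

/-! The numbers for `36 ≤ n ≤ 137`. -/

set_option autoImplicit false

namespace Pool.Agent.X214.NU

/-- the integral part of `100 √n`, `36 ≤ n ≤ 137` -/
def rtL : List ℕ :=
  [600, 608, 616, 624, 632, 640, 648, 655, 663, 670, 678, 685, 692, 700, 707, 714, 721, 728,
  734, 741, 748, 754, 761, 768, 774, 781, 787, 793, 800, 806, 812, 818, 824, 830, 836, 842,
  848, 854, 860, 866, 871, 877, 883, 888, 894, 900, 905, 911, 916, 921, 927, 932, 938, 943,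
  948, 953, 959, 964, 969, 974, 979, 984, 989, 994, 1000, 1004, 1009, 1014, 1019, 1024, 1029,
  1034, 1039, 1044, 1048, 1053, 1058, 1063, 1067, 1072, 1077, 1081, 1086, 1090, 1095, 1100,
  1104, 1109, 1113, 1118, 1122, 1126, 1131, 1135, 1140, 1144, 1148, 1153, 1157, 1161, 1166,
  1170]

/-- the integral part of `100 √n` -/
def rt (n : ℕ) : ℕ := rtL.getD (n - 36) 0

/-- the intervals of the numbers `q` which are left out -/
def abL : List (ℕ × ℕ) :=
  [(1000, 0), (6, 7), (1000, 0), (7, 7), (1000, 0), (6, 9), (1000, 0), (7, 7), (1000, 0), (7,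
  9), (8, 8), (8, 9), (1000, 0), (7, 11), (9, 9), (8, 9), (1000, 0), (7, 11), (9, 11), (9,
  11), (1000, 0), (8, 13), (10, 11), (9, 12), (1000, 0), (9, 13), (10, 12), (10, 12), (11,
  12), (9, 14), (11, 13), (10, 13), (12, 12), (9, 15), (11, 13), (11, 14), (12, 13), (10, 15),
  (11, 14), (11, 15), (13, 13), (11, 16), (12, 15), (11, 17), (1000, 0), (11, 16), (13, 15),
  (12, 17), (1000, 0), (12, 16), (14, 16), (13, 17), (1000, 0), (13, 16), (15, 16), (14, 17),
  (1000, 0), (14, 17), (15, 16), (15, 17), (1000, 0), (15, 17), (16, 16), (16, 18), (1000, 0),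
  (16, 17), (1000, 0), (17, 18), (1000, 0), (17, 17), (1000, 0), (17, 18), (1000, 0), (1000,
  0), (1000, 0), (18, 18), (1000, 0), (1000, 0), (1000, 0), (1000, 0), (1000, 0), (1000, 0),
  (1000, 0), (1000, 0), (1000, 0), (1000, 0), (1000, 0), (1000, 0), (1000, 0), (1000, 0),
  (1000, 0), (1000, 0), (1000, 0), (1000, 0), (1000, 0), (1000, 0), (1000, 0), (1000, 0),
  (1000, 0), (1000, 0), (1000, 0), (1000, 0)]

/-- the interval left out -/
def ab (n : ℕ) : ℕ × ℕ := abL.getD (n - 36) (0, 0)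

/-- the number of spectators -/
def cc (n : ℕ) : ℕ := if n % 4 = 0 then 0 else if n % 4 = 1 then 5 else if n % 4 = 2 then 2 else 3
/-- the number of clusters -/
def NN (n : ℕ) : ℕ := (n - cc n) / 4
/-- the constant of the window `E` -/
def kE (n : ℕ) : ℕ :=
  if n % 4 = 0 then 1350 else if n % 4 = 1 then 2400 else if n % 4 = 2 then 2250 else 2700
/-- the half-width `E`, times `300` -/
def hEn (n : ℕ) : ℕ := min (150 * (n + cc n) - 9 * rt n) (2 * (rt n + 1) + kE n)
/-- the half-width `S`, times `300` -/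
def hSn (n : ℕ) : ℕ := min (150 * (n + cc n) - 9 * rt n) (2 * (rt n + 1) + 150 + 150 * cc n)
/-- the number of clusters for one doubling -/
def XA (n : ℕ) : ℕ := max (hSn n + 885) (hEn n + 630) / 600 + 1
/-- the number of inner clusters, emptiness -/
def X2 (n : ℕ) : ℕ := max ((1290 + hSn n + 599) / 600) ((hEn n - 90) / 600 + 1)
/-- the number of inner clusters, independence -/
def X3 (n : ℕ) : ℕ := max ((1320 + hEn n + 599) / 600) ((hSn n - 120) / 600 + 1)
/-- the number of inner clusters -/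
def xx (n q : ℕ) : ℕ := max (X2 n) (max (q + 2 - NN n) ((X3 n + 2 + q + 1 - NN n) / 2))

/-- the conditions for family `C` -/
def covC (n q N x2 xp : ℕ) : Bool :=
  decide (q ≤ x2 + N) && decide (2 ≤ x2 + N - q) && decide ((x2 + N - q) + xp ≤ N) &&
  decide (x2 ≤ xp) && decide (600 * xp + 1005 ≤ 600 * (x2 + (x2 + N - q))) &&
  decide (1290 + hSn n ≤ 600 * x2) && decide (hEn n < 600 * x2 + 90) &&
  decide (1320 + hEn n ≤ 600 * xp) && decide (hSn n < 600 * xp + 120) &&
  decide (10 * (2 * N + 2 * x2) ^ 2 + 10 * n * cc n + 12 * N + 15 + 102 * n ≤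
    6 * n * n + 10 * n + 40 * n * x2) && decide (400 * xp + 25 + 1440 ≤ 80 * n + 100 * cc n)

/-- the check for one pair -/
def chk1 (n q : ℕ) : Bool :=
  (decide ((ab n).1 ≤ q) && decide (q ≤ (ab n).2)) || decide (q + XA n ≤ NN n) ||
  decide (NN n + XA n ≤ q) || covC n q (NN n) (xx n q) (max (xx n q) (X3 n))

/-- the check for one `n` -/
def chk (n : ℕ) : Bool :=
  decide (rt n * rt n ≤ 10000 * n) && decide (10000 * n < (rt n + 1) * (rt n + 1)) &&
  decide (4 * XA n + 1 ≤ 2 * NN n + cc n) && (List.range (n + 1)).all (chk1 n)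

theorem chk_all : (List.range 102).all (fun i => chk (i + 36)) = true := by
  decide +kernel

end Pool.Agent.X214.NU
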